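import Pool.Agent.Zk8.DT.Pairs

/-!
# Pure Gauss sums over fields with `Q ^ 2` elements
-/

set_option autoImplicit false
set_option linter.unusedSectionVars false

namespace Pool.Agent.Zk8.DT

open Polynomial Finset
open Pool.Agent.Zk8.DH

section

variable {k : Type} [Field k] [Fintype k] {p : ℕ} [Fact p.Prime] [CharP k p]

/-- the elements fixed by the `Q`-th power -/
def fixQ (k : Type) [Field k] (p f : ℕ) [Fact p.Prime] [CharP k p] : AddSubgroup k where
  carrier := {x | x ^ p ^ f = x}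
  zero_mem' := by
    change (0 : k) ^ p ^ f = 0
    rw [zero_pow (pow_ne_zero _ (Fact.out : p.Prime).ne_zero)]
  add_mem' := by
    intro a b ha hb
    change (a + b) ^ p ^ f = a + b
    rw [add_pow_char_pow, ha, hb]
  neg_mem' := by
    intro a ha
    change (-a) ^ p ^ f = -a
    have h1 : (a + -a) ^ p ^ f = a ^ p ^ f + (-a) ^ p ^ f := add_pow_char_pow a (-a) p f
    rw [add_neg_cancel, zero_pow (pow_ne_zero _ (Fact.out : p.Prime).ne_zero), ha] at h1
    exact (eq_neg_of_add_eq_zero_right h1.symm)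

lemma mem_fixQ {f : ℕ} {x : k} : x ∈ fixQ k p f ↔ x ^ p ^ f = x := Iff.rfl

open scoped Classical in
lemma card_fixQ {f : ℕ} (hf : 0 < f) (hk : Fintype.card k = (p ^ f) ^ 2) :
    Nat.card (fixQ k p f) = p ^ f := by
  have hp : p.Prime := Fact.out
  set Q := p ^ f with hQ
  have hQ1 : 1 < Q := Nat.one_lt_pow hf.ne' hp.one_lt
  have hne : NeZero (Q - 1) := ⟨by omega⟩
  have hdvd : Q - 1 ∣ Fintype.card k - 1 := by
    rw [hk]
    simpa using Nat.sub_dvd_pow_sub_pow Q 1 2
  -- a character of order `Q - 1`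
  obtain ⟨χ, hχ⟩ : ∃ χ : MulChar k ℂ, orderOf χ = Q - 1 :=
    MulChar.exists_mulChar_orderOf k hdvd (Complex.isPrimitiveRoot_exp (Q - 1) (by omega))
  have h1 := card_pow_eq hdvd χ hχ (one_ne_zero (α := k))
  have h2 : ∀ a ∈ (univ : Finset (ZMod (Q - 1))), (χ ^ a.val) (1 : k) = 1 := fun a _ => by
    rw [map_one]
  rw [Finset.sum_congr rfl h2, Finset.sum_const, Finset.card_univ, ZMod.card, nsmul_eq_mul,
    mul_one] at h1
  have h3 : (univ.filter fun x : k => x ^ (Q - 1) = 1).card = Q - 1 := by exact_mod_cast h1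
  have h4 : (univ.filter fun x : k => x ∈ fixQ k p f) =
      insert 0 (univ.filter fun x : k => x ^ (Q - 1) = 1) := by
    ext x
    rw [mem_filter, mem_insert, mem_filter, mem_fixQ, ← hQ]
    by_cases hx : x = 0
    · subst hx
      simp
      omega
    · have h5 : x ^ Q = x ↔ x ^ (Q - 1) = 1 := by
        constructor
        · intro h
          apply mul_right_cancel₀ hx
          rw [← pow_succ, one_mul, Nat.sub_add_cancel hQ1.le, h]
        · intro h
          rw [← Nat.sub_add_cancel hQ1.le, pow_succ, h, one_mul]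
      simp [hx, h5]
  have h0 : (0 : k) ∉ (univ.filter fun x : k => x ^ (Q - 1) = 1) := by
    rw [mem_filter, zero_pow (by omega)]
    simp
  rw [Nat.card_eq_fintype_card, Fintype.card_subtype, h4, Finset.card_insert_of_notMem h0, h3]
  omega

/-- **Pure Gauss sums**: if `|k| = Q ^ 2`, there is a nonzero `z` such that the Gauss sum of every
nontrivial character which is trivial on the elements fixed by the `Q`-th power is `Q χ(z)`. -/
theorem exists_pure {f : ℕ} (hf : 0 < f) (hk : Fintype.card k = (p ^ f) ^ 2)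
    {ψ : AddChar k ℂ} (hψ : ψ ≠ 1) :
    ∃ z : k, z ≠ 0 ∧ ∀ χ : MulChar k ℂ, χ ≠ 1 →
      (∀ y : k, y ≠ 0 → y ^ p ^ f = y → χ y = 1) → gaussSum χ ψ = (p ^ f : ℕ) * χ z := by
  classical
  have hp : p.Prime := Fact.out
  have hcard := card_fixQ hf hk
  set Q := p ^ f with hQ
  have hQ1 : 1 < Q := Nat.one_lt_pow hf.ne' hp.one_lt
  have hQc : (Q : ℂ) ≠ 0 := by exact_mod_cast (by omega : Q ≠ 0)
  set H := fixQ k p f with hH
  have hmulH : ∀ {a b : k}, a ∈ H → b ∈ H → a * b ∈ H := by
    intro a b ha hb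
    rw [mem_fixQ] at ha hb ⊢
    rw [mul_pow, ha, hb]
  have hinvH : ∀ {a : k}, a ∈ H → a⁻¹ ∈ H := by
    intro a ha
    rw [mem_fixQ] at ha ⊢
    rw [inv_pow, ha]
  have hone : (1 : k) ∈ H := by
    rw [mem_fixQ, one_pow]
  -- the orthogonal complement
  let P : Finset k := univ.filter fun x => ∀ y ∈ H, ψ (x * y) = 1
  have hsumH : ∀ x : k, ∑ y : H, ψ (x * y) = if x ∈ P then (Q : ℂ) else 0 := by
    intro x
    let φ : AddChar H ℂ :=
      { toFun := fun y => ψ (x * y)
        map_zero_eq_one' := by simp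
        map_add_eq_mul' := by
          intro a b
          simp [mul_add, AddChar.map_add_eq_mul] }
    have h1 := AddChar.sum_eq_ite φ
    have h2 : ∑ y : H, ψ (x * y) = ∑ y : H, φ y := rfl
    rw [h2, h1]
    have h3 : φ = 0 ↔ x ∈ P := by
      rw [mem_filter]
      constructor
      · intro h
        refine ⟨mem_univ _, fun y hy => ?_⟩
        have h4 := congrArg (fun φ : AddChar H ℂ => φ ⟨y, hy⟩) h
        exact h4
      · rintro ⟨-, h⟩
        ext y
        have h4 : φ y = ψ (x * y) := rfl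
        rw [h4, h y.1 y.2]
        simp
    rw [← Nat.card_eq_fintype_card, hcard]
    simp only [h3]
  -- its cardinality
  have hPcard : P.card = Q := by
    have h1 : ∑ x : k, ∑ y : H, ψ (x * y) = (Q : ℂ) ^ 2 := by
      rw [Finset.sum_comm]
      have h2 : ∀ y : H, ∑ x : k, ψ (x * y) = if y = 0 then (Fintype.card k : ℂ) else 0 := by
        intro y
        rw [sum_psi hψ (y : k)]
        have h3 : ((y : k) = 0) ↔ y = 0 := by
          constructor
          · intro h
            exact Subtype.ext h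
          · rintro rfl
            rfl
        simp only [h3]
      rw [Finset.sum_congr rfl fun y _ => h2 y, Finset.sum_ite_eq' , if_pos (mem_univ _), hk]
      push_cast
      rfl
    rw [Finset.sum_congr rfl fun x _ => hsumH x, ← Finset.sum_filter, Finset.sum_const,
      Finset.filter_mem_eq_inter, Finset.univ_inter, nsmul_eq_mul, pow_two] at h1
    exact_mod_cast mul_right_cancel₀ hQc h1
  have hP0 : (0 : k) ∈ P := by
    rw [mem_filter]
    refine ⟨mem_univ _, fun y _ => ?_⟩
    rw [zero_mul, AddChar.map_zero_eq_one]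
  obtain ⟨z, hz, hz0⟩ : ∃ z ∈ P, z ≠ 0 := by
    by_contra h
    push Not at h
    have h1 : P ⊆ {0} := fun x hx => mem_singleton.2 (h x hx)
    have h2 := Finset.card_le_card h1
    rw [hPcard, Finset.card_singleton] at h2
    omega
  -- the complement is the line of `z`
  have hPz : P = (univ : Finset H).image fun y : H => z * (y : k) := by
    symm
    apply Finset.eq_of_subset_of_card_le
    · intro x hx
      obtain ⟨y, -, rfl⟩ := mem_image.1 hx
      rw [mem_filter] at hz ⊢
      refine ⟨mem_univ _, fun w hw => ?_⟩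
      rw [mul_assoc]
      exact hz.2 _ (hmulH y.2 hw)
    · rw [Finset.card_image_of_injective, Finset.card_univ, ← Nat.card_eq_fintype_card, hcard,
        hPcard]
      intro a b hab
      exact Subtype.ext (mul_left_cancel₀ hz0 hab)
  refine ⟨z, hz0, fun χ hχ hχH => ?_⟩
  -- average over the group
  have hg : ∀ y : H, (y : k) ≠ 0 → ∑ x : k, χ x * ψ (x * y) = gaussSum χ ψ := by
    intro y hy
    have h1 : gaussSum χ ψ = ∑ x : k, χ (x * y) * ψ (x * y) := by
      unfold gaussSum
      exact (Equiv.sum_comp (Equiv.mulRight₀ (y : k) hy) (fun x => χ x * ψ x)).symm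
    rw [h1]
    refine Finset.sum_congr rfl fun x _ => ?_
    rw [map_mul χ, hχH y hy y.2, mul_one]
  have h1 : ∑ x : k, χ x * ∑ y : H, ψ (x * y) = ((Q : ℂ) - 1) * gaussSum χ ψ := by
    simp only [Finset.mul_sum]
    rw [Finset.sum_comm, ← Finset.add_sum_erase _ _ (mem_univ (0 : H))]
    have h2 : ∑ x : k, χ x * ψ (x * ((0 : H) : k)) = 0 := by
      simp only [ZeroMemClass.coe_zero, mul_zero, AddChar.map_zero_eq_one, mul_one]
      exact MulChar.sum_eq_zero_of_ne_one hχ
    rw [h2, zero_add]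
    have h3 : ∀ y ∈ (univ : Finset H).erase 0, ∑ x : k, χ x * ψ (x * y) = gaussSum χ ψ := by
      intro y hy
      apply hg y
      intro h
      exact (Finset.ne_of_mem_erase hy) (Subtype.ext h)
    rw [Finset.sum_congr rfl h3, Finset.sum_const, Finset.card_erase_of_mem (mem_univ _),
      Finset.card_univ, ← Nat.card_eq_fintype_card, hcard, nsmul_eq_mul,
      Nat.cast_sub hQ1.le, Nat.cast_one]
  have h2 : ∑ x : k, χ x * ∑ y : H, ψ (x * y) = (Q : ℂ) * (((Q : ℂ) - 1) * χ z) := by
    rw [Finset.sum_congr rfl fun x _ => by rw [hsumH x]]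
    simp only [mul_ite, mul_zero]
    rw [← Finset.sum_filter, Finset.filter_mem_eq_inter, Finset.univ_inter, hPz,
      Finset.sum_image (fun a _ b _ hab => Subtype.ext (mul_left_cancel₀ hz0 hab)),
      ← Finset.add_sum_erase _ _ (mem_univ (0 : H))]
    have h3 : ∀ y ∈ (univ : Finset H).erase 0, χ (z * y) * (Q : ℂ) = χ z * Q := by
      intro y hy
      have hy0 : (y : k) ≠ 0 := fun h => (Finset.ne_of_mem_erase hy) (Subtype.ext h)
      rw [map_mul, hχH y hy0 y.2, mul_one]
    rw [Finset.sum_congr rfl h3, Finset.sum_const, Finset.card_erase_of_mem (mem_univ _),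
      Finset.card_univ, ← Nat.card_eq_fintype_card, hcard, nsmul_eq_mul,
      Nat.cast_sub hQ1.le, Nat.cast_one]
    simp only [ZeroMemClass.coe_zero, mul_zero, MulChar.map_zero, zero_mul, zero_add]
    ring
  rw [h2] at h1
  have hQ2 : (Q : ℂ) - 1 ≠ 0 := by
    rw [sub_ne_zero]
    exact_mod_cast (by omega : Q ≠ 1)
  apply mul_left_cancel₀ hQ2
  rw [← h1]
  ring

end

section apply

variable {k : Type} [Field k] [Fintype k] [DecidableEq k] {p m d : ℕ} [Fact p.Prime] [CharP k p]
  [NeZero m] [NeZero d]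

/-- in the supersingular case all the lines contribute -/
theorem eqn_of_pure {f : ℕ} (hf : 0 < f) (hk : Fintype.card k = (p ^ f) ^ 2)
    (hmdQ : m * d ∣ p ^ f + 1) {θ : MulChar k ℂ} (hθ : orderOf θ = m * d)
    {ψ : AddChar k ℂ} (hψ : ψ ≠ 1) {r : ℕ} {n : Fin r → ℕ} {i : ℕ} (hi : ∑ b, n b + 1 = 2 * i)
    {c : ∀ b, Fin (n b + 2) → k} (hc : ∀ b j, c b j ≠ 0) (hcQ : ∀ b j, c b j ^ p ^ f = c b j)
    (v : ∀ b, Fin (n b + 2) → ℕ)
    {s : ∀ b, Fin (n b + 2) → ZMod m} (hs : s ∈ lines m n) {e : ZMod (m * d)}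
    (h0 : (0 : ZMod (m * d)) ∉ tup d v s e) : Eqn (d := d) θ ψ i c v s e := by
  classical
  have hmd : NeZero (m * d) := ⟨mul_ne_zero (NeZero.ne m) (NeZero.ne d)⟩
  have hp : p.Prime := Fact.out
  obtain ⟨z, hz0, hz⟩ := exists_pure (p := p) hf hk hψ
  set Q := p ^ f with hQ
  have hQ1 : 1 < Q := Nat.one_lt_pow hf.ne' hp.one_lt
  -- `θ` is trivial on the fixed field
  have hθQ : ∀ y : k, y ≠ 0 → y ^ Q = y → θ y = 1 := by
    intro y hy hyQ
    -- `y` is a `(Q + 1)`-st power
    obtain ⟨g, hg⟩ := IsCyclic.exists_generator (α := kˣ)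
    have hgo : orderOf g = Fintype.card k - 1 := by
      rw [orderOf_eq_card_of_forall_mem_zpowers hg, Nat.card_eq_fintype_card, Fintype.card_units]
    obtain ⟨u, rfl⟩ : ∃ u : kˣ, (u : k) = y := ⟨Units.mk0 y hy, rfl⟩
    obtain ⟨j, hj⟩ : u ∈ Submonoid.powers g := by
      have h1 : (u : kˣ) ∈ Subgroup.zpowers g := hg u
      rwa [← mem_powers_iff_mem_zpowers] at h1
    have hj' : g ^ j = u := hj
    have h1 : u ^ (Q - 1) = 1 := by
      apply Units.ext
      push_cast
      apply mul_right_cancel₀ hy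
      rw [← pow_succ, one_mul, Nat.sub_add_cancel hQ1.le, hyQ]
    rw [← hj', ← pow_mul] at h1
    have h2 := orderOf_dvd_of_pow_eq_one h1
    rw [hgo, hk] at h2
    have h3 : Q ^ 2 - 1 = (Q + 1) * (Q - 1) := by
      have := Nat.sq_sub_sq Q 1
      simpa using this
    rw [h3] at h2
    have h4 : Q + 1 ∣ j := Nat.dvd_of_mul_dvd_mul_right (by omega) h2
    obtain ⟨t, ht⟩ := hmdQ.trans h4
    have h5 : θ ^ j = 1 := by
      rw [ht, pow_mul, ← hθ, pow_orderOf_eq_one, one_pow]
    rw [← hj']
    push_cast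
    rw [map_pow, ← MulChar.pow_apply_coe, h5, MulChar.one_apply_coe]
  have hpow : ∀ (N : ℕ) (y : k), y ≠ 0 → y ^ Q = y → (θ ^ N) y = 1 := by
    intro N y hy hyQ
    have h1 := MulChar.pow_apply_coe θ N (Units.mk0 y hy)
    rw [Units.val_mk0] at h1
    rw [h1, hθQ y hy hyQ, one_pow]
  have hcst : (θ ^ d)⁻¹ (cst c s) = 1 := by
    have h1 : cst c s ^ Q = cst c s := by
      unfold cst
      simp only [← Finset.prod_pow]
      refine Finset.prod_congr rfl fun b _ => Finset.prod_congr rfl fun j _ => ?_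
      rw [← pow_mul, mul_comm, pow_mul, hcQ b j]
    have h2 : cst c s ≠ 0 := cst_ne_zero hc s
    rw [MulChar.inv_apply_eq_inv', hpow d _ h2 h1, inv_one]
  have hneg : (-1 : k) ^ Q = -1 := by
    have h1 := (fixQ k p f).neg_mem (x := 1) (by rw [mem_fixQ, one_pow])
    rw [mem_fixQ] at h1
    exact h1
  unfold Eqn
  rw [hcst, hpow _ (-1) (by norm_num) hneg, one_mul, one_mul]
  -- the product of the Gauss sums
  have hg : ∀ a ∈ tup d v s e, gaussSum (θ ^ a.val) ψ = (Q : ℂ) * θ z ^ a.val := by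
    intro a ha
    have ha0 : a ≠ 0 := fun h => h0 (h ▸ ha)
    rw [hz (θ ^ a.val) (fun h => ha0 ((pow_val_eq_one hθ a).1 h)) (fun y hy hyQ => hpow _ y hy hyQ)]
    congr 1
    have h1 := MulChar.pow_apply_coe θ a.val (Units.mk0 z hz0)
    rwa [Units.val_mk0] at h1
  rw [Multiset.map_congr rfl hg, Multiset.prod_map_mul, Multiset.map_const', Multiset.prod_replicate,
    tup_card]
  have h1 : ((tup d v s e).map fun a => θ z ^ a.val).prod = θ z ^ ((tup d v s e).map ZMod.val).sum := by
    generalize tup d v s e = T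
    induction T using Multiset.induction_on with
    | empty => simp
    | cons a T ih => simp only [Multiset.map_cons, Multiset.prod_cons, Multiset.sum_cons, pow_add, ih]
  have h2 : m * d ∣ ((tup d v s e).map ZMod.val).sum := by
    rw [← ZMod.natCast_eq_zero_iff]
    have h3 := tup_sum (d := d) v hs e
    rw [← h3]
    generalize tup d v s e = T
    induction T using Multiset.induction_on with
    | empty => simp
    | cons a T ih =>
      simp only [Multiset.map_cons, Multiset.sum_cons]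
      rw [Nat.cast_add, ih, ZMod.natCast_zmod_val]
  obtain ⟨t, ht⟩ := h2
  have h3 : θ z ^ (m * d) = 1 := by
    have h4 := MulChar.pow_apply_coe θ (m * d) (Units.mk0 z hz0)
    rw [← hθ, pow_orderOf_eq_one, MulChar.one_apply_coe, Units.val_mk0, hθ] at h4
    exact h4.symm
  rw [h1, ht, pow_mul, h3, one_pow, mul_one, hk]
  push_cast
  rw [← pow_mul]
  congr 1
  omega

end apply

end Pool.Agent.Zk8.DT
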