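import Pool.Agent.Zk8.DH.Order

/-!
# Character sums of `x ^ A (1 - x ^ d) ^ V` as sums of Jacobi sums
-/

set_option autoImplicit false
set_option linter.unusedSectionVars false

namespace Pool.Agent.Zk8.DT

open Polynomial Finset
open Pool.Agent.Zk8.DH
open Pool.Agent.Y145.KS (psi psi_apply psi_ne_one splits_of_dvd_finrank)
open Pool.Agent.N883.C (chE chE_apply chE_mul chE_one chE_inv chE_ne_one gauss_E)

section field

variable {E : Type} [Field E] [Fintype E] {d m : ℕ} [NeZero d]

/-- The sum of `x ^ A (1 - x ^ d) ^ V` under a character, via `y = x ^ d`. -/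
theorem sum_jacobi (hd : m * d ∣ Fintype.card E - 1) (τ : MulChar E ℂ) (hτ : orderOf τ = m * d)
    (A V : ℕ) :
    ∑ x : E, (τ ^ (d * A)) x * (τ ^ (d * V)) (1 - x ^ d) =
      ∑ l : ZMod d, jacobiSum (τ ^ (A + m * l.val)) (τ ^ (d * V)) := by
  classical
  have hd0 : 0 < d := Nat.pos_of_ne_zero (NeZero.ne d)
  have hmd : m * d ≠ 0 := by
    intro h
    rw [h, zero_dvd_iff] at hd
    have : 1 < Fintype.card E := Fintype.one_lt_card
    omega
  have hm0 : m ≠ 0 := fun h => hmd (by rw [h, zero_mul])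
  have hτm : orderOf (τ ^ m) = d := by
    rw [orderOf_pow_of_dvd hm0 (by rw [hτ]; exact dvd_mul_right _ _), hτ,
      Nat.mul_div_cancel_left _ (Nat.pos_of_ne_zero hm0)]
  have hdd : d ∣ Fintype.card E - 1 := (dvd_mul_left d m).trans hd
  have hap : ∀ (n : ℕ) {x : E}, x ≠ 0 → (τ ^ n) x = τ x ^ n := by
    intro n x hx
    have := MulChar.pow_apply_coe τ n (Units.mk0 x hx)
    simpa using this
  have h1 : ∑ x : E, (τ ^ (d * A)) x * (τ ^ (d * V)) (1 - x ^ d) =
      ∑ y : E, (∑ x ∈ univ.filter (fun x : E => x ^ d = y), (τ ^ (d * A)) x) *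
        (τ ^ (d * V)) (1 - y) := by
    rw [← Finset.sum_fiberwise (s := Finset.univ) (g := fun x : E => x ^ d)]
    refine Finset.sum_congr rfl fun y _ => ?_
    rw [Finset.sum_mul]
    refine Finset.sum_congr rfl fun x hx => ?_
    rw [(Finset.mem_filter.1 hx).2]
  have h2 : ∀ y : E, ∑ x ∈ univ.filter (fun x : E => x ^ d = y), (τ ^ (d * A)) x =
      ∑ l : ZMod d, (τ ^ (A + m * l.val)) y := by
    intro y
    by_cases hy : y = 0
    · subst hy
      rw [Finset.sum_eq_zero, Finset.sum_eq_zero]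
      · intro l _
        exact MulChar.map_zero _
      · intro x hx
        have h3 : x = 0 := by
          have := (Finset.mem_filter.1 hx).2
          exact pow_eq_zero_iff hd0.ne' |>.1 this
        rw [h3, MulChar.map_zero]
    · have h3 : ∀ x ∈ univ.filter (fun x : E => x ^ d = y), (τ ^ (d * A)) x = (τ ^ A) y := by
        intro x hx
        have hxy := (Finset.mem_filter.1 hx).2
        have hx0 : x ≠ 0 := by
          rintro rfl
          rw [zero_pow hd0.ne'] at hxy
          exact hy hxy.symm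
        rw [hap _ hx0, hap _ hy, ← hxy, map_pow, ← pow_mul]
      rw [Finset.sum_congr rfl h3, Finset.sum_const, nsmul_eq_mul,
        card_pow_eq hdd (τ ^ m) hτm hy, Finset.sum_mul]
      refine Finset.sum_congr rfl fun l _ => ?_
      rw [← pow_mul, hap _ hy, hap _ hy, hap _ hy, ← pow_add, add_comm]
  rw [h1, Finset.sum_congr rfl fun y _ => by rw [h2 y, Finset.sum_mul], Finset.sum_comm]
  rfl

end field

section HD

variable {k : Type} [Field k] [Fintype k]

/-- the theorem of Hasse and Davenport for Jacobi sums -/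
theorem jacobi_E (E : Type) [Field E] [Fintype E] [Algebra k E] {χ φ : MulChar k ℂ}
    (h : χ ≠ 1 ∨ φ ≠ 1) {ψ : AddChar k ℂ} (hψ : ψ ≠ 1) :
    jacobiSum (chE χ E) (chE φ E) = (-1) ^ (Module.finrank k E - 1) *
      jacobiSum χ φ ^ Module.finrank k E := by
  classical
  have hn : 0 < Module.finrank k E := Module.finrank_pos
  by_cases hχφ : χ * φ = 1
  · have hφ : φ = χ⁻¹ := eq_inv_of_mul_eq_one_right hχφ
    subst hφ
    have hχ : χ ≠ 1 := by
      rcases h with h | h
      · exact h
      · intro h1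
        exact h (by rw [h1, inv_one])
    rw [jacobiSum_nontrivial_inv hχ, ← chE_inv, jacobiSum_nontrivial_inv (chE_ne_one hχ)]
    have h1 : chE χ E (-1) = χ (-1) ^ Module.finrank k E := by
      have := Pool.Agent.N883.C.chE_algebraMap (E := E) χ (-1)
      rwa [map_neg, map_one] at this
    rw [h1, neg_pow (χ (-1)), ← mul_assoc, ← pow_add]
    obtain ⟨e, he⟩ : ∃ e, Module.finrank k E = e + 1 := ⟨Module.finrank k E - 1, by omega⟩
    have h3 : ((-1 : ℂ)) ^ (2 * e + 1) = -1 := by
      rw [pow_succ, pow_mul]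
      norm_num
    rw [he, Nat.add_sub_cancel, ← add_assoc, ← two_mul, h3]
    ring
  · set n := Module.finrank k E with hndef
    have h1 := jacobiSum_mul_nontrivial hχφ ψ
    have h2 := jacobiSum_mul_nontrivial (χ := chE χ E) (φ := chE φ E)
      (by rw [← chE_mul]; exact chE_ne_one hχφ) (psi ψ E)
    rw [← chE_mul, gauss_E _ hψ, gauss_E _ hψ, gauss_E _ hψ, ← hndef] at h2
    have h3 : gaussSum (χ * φ) ψ ≠ 0 := by
      apply gaussSum_ne_zero_of_nontrivial _ hχφ
      · exact AddChar.IsPrimitive.of_ne_one hψ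
      · exact_mod_cast Fintype.card_ne_zero
    have h5 : ((-1 : ℂ)) ^ (n - 1) * (-1) ^ (n - 1) = 1 := by
      rw [← mul_pow]; simp
    have h6 : ((-1 : ℂ)) ^ (n - 1) ≠ 0 := pow_ne_zero _ (by norm_num)
    apply mul_left_cancel₀ (mul_ne_zero h6 (pow_ne_zero n h3))
    rw [h2]
    calc (-1) ^ (n - 1) * gaussSum χ ψ ^ n * ((-1) ^ (n - 1) * gaussSum φ ψ ^ n)
        = ((-1) ^ (n - 1) * (-1) ^ (n - 1)) * (gaussSum χ ψ * gaussSum φ ψ) ^ n := by
          rw [mul_pow]; ring
      _ = (-1) ^ (n - 1) * (-1) ^ (n - 1) * (gaussSum (χ * φ) ψ * jacobiSum χ φ) ^ n := by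
          rw [h1]
      _ = _ := by rw [mul_pow]; ring

lemma norm_jacobi_le (χ φ : MulChar k ℂ) : ‖jacobiSum χ φ‖ ≤ Fintype.card k := by
  classical
  unfold jacobiSum
  refine (norm_sum_le _ _).trans ?_
  refine (Finset.sum_le_sum (g := fun _ => (1 : ℝ)) fun x _ => ?_).trans ?_
  · rw [norm_mul]
    exact mul_le_one₀ (mc_norm_le χ _) (norm_nonneg _) (mc_norm_le φ _)
  · rw [Finset.sum_const, Finset.card_univ, nsmul_eq_mul, mul_one]

/-- Jacobi sums with a trivial character -/
lemma norm_jacobi_eq {χ φ : MulChar k ℂ} (h : χ ≠ 1 ∨ φ ≠ 1) (h1 : χ = 1 ∨ φ = 1 ∨ χ * φ = 1) :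
    ‖jacobiSum χ φ‖ = 1 := by
  classical
  by_cases hχ : χ = 1
  · have hφ : φ ≠ 1 := by
      rcases h with h | h
      · exact absurd hχ h
      · exact h
    rw [hχ, jacobiSum_one_nontrivial hφ]
    simp
  · by_cases hφ : φ = 1
    · rw [hφ, jacobiSum_comm, jacobiSum_one_nontrivial hχ]
      simp
    · have h2 : χ * φ = 1 := by
        rcases h1 with h1 | h1 | h1
        · exact absurd h1 hχ
        · exact absurd h1 hφ
        · exact h1
      rw [eq_inv_of_mul_eq_one_right h2, jacobiSum_nontrivial_inv hχ, norm_neg]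
      exact mc_norm χ (by norm_num)

end HD

section line

variable {k : Type} [Field k] [Fintype k] [DecidableEq k] {m d : ℕ} [NeZero m] [NeZero d]

/-- the reciprocal roots of the numerator for one `l` -/
noncomputable def Bl (τ : MulChar k ℂ) (c : ℂ) (m d A V : ℕ) (l : ℕ) : Multiset ℂ :=
  open scoped Classical in
  if τ ^ (A + m * l) = 1 ∧ τ ^ (d * V) = 1 then {c, c}
  else {-(c * jacobiSum (τ ^ (A + m * l)) (τ ^ (d * V)))}

/-- the reciprocal roots of the denominator for one `l` -/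
noncomputable def Dl (τ : MulChar k ℂ) (c : ℂ) (m d A V : ℕ) (l : ℕ) : Multiset ℂ :=
  open scoped Classical in
  if τ ^ (A + m * l) = 1 ∧ τ ^ (d * V) = 1 then {c * Fintype.card k} else 0

lemma BD_psum (τ : MulChar k ℂ) (c : ℂ) (m d A V l : ℕ) {ψ : AddChar k ℂ} (hψ : ψ ≠ 1)
    (E : Type) [Field E] [Fintype E] [Algebra k E] :
    c ^ Module.finrank k E * jacobiSum (chE τ E ^ (A + m * l)) (chE τ E ^ (d * V)) =
      ((Dl τ c m d A V l).map fun β => β ^ Module.finrank k E).sum -
        ((Bl τ c m d A V l).map fun β => β ^ Module.finrank k E).sum := by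
  classical
  have hn : 0 < Module.finrank k E := Module.finrank_pos
  unfold Dl Bl
  split_ifs with h
  · rw [← chE_pow, ← chE_pow, h.1, h.2, chE_one, jacobiSum_one_one]
    have h1 : (Fintype.card E : ℂ) = (Fintype.card k : ℂ) ^ Module.finrank k E := cardE
    rw [h1]
    simp only [Multiset.map_singleton, Multiset.sum_singleton, Multiset.insert_eq_cons,
      Multiset.map_cons, Multiset.sum_cons]
    rw [mul_pow]
    ring
  · rw [← chE_pow, ← chE_pow, jacobi_E E (by tauto) hψ]
    simp only [Multiset.map_singleton, Multiset.sum_singleton, Multiset.map_zero,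
      Multiset.sum_zero, zero_sub]
    obtain ⟨e, he⟩ : ∃ e, Module.finrank k E = e + 1 := ⟨Module.finrank k E - 1, by omega⟩
    rw [he, Nat.add_sub_cancel, neg_pow (c * _), mul_pow]
    rw [pow_succ (-1 : ℂ) e]
    ring

lemma Bl_norm (τ : MulChar k ℂ) {c : ℂ} (hc : ‖c‖ = 1) (m d A V l : ℕ) :
    ∀ β ∈ Bl τ c m d A V l, ‖β‖ ≤ Fintype.card k := by
  classical
  have hq : (1 : ℝ) ≤ Fintype.card k := by exact_mod_cast Fintype.card_pos
  intro β hβ
  unfold Bl at hβ
  split_ifs at hβ
  · have : β = c := by simpa using hβ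
    rw [this, hc]
    exact hq
  · have : β = -(c * jacobiSum (τ ^ (A + m * l)) (τ ^ (d * V))) := by simpa using hβ
    rw [this, norm_neg, norm_mul, hc, one_mul]
    exact norm_jacobi_le _ _

lemma Dl_norm (τ : MulChar k ℂ) {c : ℂ} (hc : ‖c‖ = 1) (m d A V l : ℕ) :
    ∀ β ∈ Dl τ c m d A V l, ‖β‖ = Fintype.card k := by
  classical
  intro β hβ
  unfold Dl at hβ
  split_ifs at hβ
  · have : β = c * Fintype.card k := by simpa using hβ
    rw [this, norm_mul, hc, one_mul, Complex.norm_natCast]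
  · simp at hβ

end line

end Pool.Agent.Zk8.DT
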