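import Pool.Agent.Zk8.DT.Jac

/-!
# The order of vanishing for coefficients `c t ^ u (1 - t ^ d) ^ v`
-/

set_option autoImplicit false
set_option linter.unusedSectionVars false

namespace Pool.Agent.Zk8.DT

open Polynomial Finset
open Pool.Agent.Zk8.DH
open Pool.Agent.Y145.KS (psi psi_apply psi_ne_one splits_of_dvd_finrank)
open Pool.Agent.N883.C (chE chE_apply chE_mul chE_one chE_inv chE_ne_one gauss_E)
open Pool.Agent.W484.BB (fac analyticAt_fac order_fac fac_eq_zero_iff norm_cpow_neg)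
open Pool.Agent.H341R2.Sharp Pool.Agent.H435R3.Weil

lemma psum_sum {ι : Type*} (s : Finset ι) (f : ι → Multiset ℂ) (g : ℂ → ℂ) :
    ((∑ l ∈ s, f l).map g).sum = ∑ l ∈ s, ((f l).map g).sum := by
  classical
  induction s using Finset.induction_on with
  | empty => simp
  | insert a s ha ih => rw [Finset.sum_insert ha, Finset.sum_insert ha, Multiset.map_add,
      Multiset.sum_add, ih]

lemma mem_msum {ι : Type*} (s : Finset ι) (f : ι → Multiset ℂ) {β : ℂ} :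
    β ∈ ∑ l ∈ s, f l ↔ ∃ l ∈ s, β ∈ f l := Multiset.mem_sum

lemma card_filter_msum {ι : Type*} (s : Finset ι) (f : ι → Multiset ℂ) (p : ℂ → Prop)
    [DecidablePred p] :
    Multiset.card ((∑ l ∈ s, f l).filter p) = ∑ l ∈ s, Multiset.card ((f l).filter p) := by
  classical
  induction s using Finset.induction_on with
  | empty => simp
  | insert a s ha ih => rw [Finset.sum_insert ha, Finset.sum_insert ha, Multiset.filter_add,
      Multiset.card_add, ih]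

section line

variable {k : Type} [Field k] [Fintype k] [DecidableEq k] {m d : ℕ} [NeZero m] [NeZero d]

/-- the coefficients -/
noncomputable def co {r : ℕ} {n : Fin r → ℕ} (d : ℕ) (c : ∀ b, Fin (n b + 2) → k)
    (u v : ∀ b, Fin (n b + 2) → ℕ) (b : Fin r) (j : Fin (n b + 2)) : k[X] :=
  C (c b j) * X ^ u b j * (1 - X ^ d) ^ v b j

/-- weighted sums -/
def wt {r : ℕ} {n : Fin r → ℕ} (u : ∀ b, Fin (n b + 2) → ℕ)
    (s : ∀ b, Fin (n b + 2) → ZMod m) : ℕ := ∑ b, ∑ j, u b j * (s b j).val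

/-- the product of the constants -/
noncomputable def cst {r : ℕ} {n : Fin r → ℕ} (c : ∀ b, Fin (n b + 2) → k)
    (s : ∀ b, Fin (n b + 2) → ZMod m) : k := ∏ b, ∏ j, c b j ^ (s b j).val

lemma aps_co {r : ℕ} {n : Fin r → ℕ} (c : ∀ b, Fin (n b + 2) → k)
    (u v : ∀ b, Fin (n b + 2) → ℕ) (s : ∀ b, Fin (n b + 2) → ZMod m) :
    aps (co d c u v) s = C (cst c s) * X ^ wt u s * (1 - X ^ d) ^ wt v s := by
  unfold aps co cst wt
  simp only [mul_pow, Finset.prod_mul_distrib, ← pow_mul, Finset.prod_pow_eq_pow_sum, map_prod,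
    map_pow]

lemma one_sub_ne : (1 - X ^ d : k[X]) ≠ 0 := by
  have hd0 : 0 < d := Nat.pos_of_ne_zero (NeZero.ne d)
  intro h
  have h1 := congrArg (Polynomial.eval 0) h
  simp [hd0.ne'] at h1

lemma co_ne_zero {r : ℕ} {n : Fin r → ℕ} {c : ∀ b, Fin (n b + 2) → k} (hc : ∀ b j, c b j ≠ 0)
    (u v : ∀ b, Fin (n b + 2) → ℕ) (b : Fin r) (j : Fin (n b + 2)) : co d c u v b j ≠ 0 := by
  unfold co
  exact mul_ne_zero (mul_ne_zero (C_ne_zero.2 (hc b j)) (pow_ne_zero _ X_ne_zero))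
    (pow_ne_zero _ one_sub_ne)

lemma cst_ne_zero {r : ℕ} {n : Fin r → ℕ} {c : ∀ b, Fin (n b + 2) → k} (hc : ∀ b j, c b j ≠ 0)
    (s : ∀ b, Fin (n b + 2) → ZMod m) : cst c s ≠ 0 :=
  Finset.prod_ne_zero_iff.2 fun b _ => Finset.prod_ne_zero_iff.2 fun j _ => pow_ne_zero _ (hc b j)

lemma wt_pos {r : ℕ} {n : Fin r → ℕ} (hr : 1 ≤ r) {u : ∀ b, Fin (n b + 2) → ℕ}
    (hu : ∀ b j, 0 < u b j) {s : ∀ b, Fin (n b + 2) → ZMod m} (hs : s ∈ lines m n) :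
    wt u s ≠ 0 := by
  rw [mem_lines] at hs
  have h0 : 0 < u ⟨0, hr⟩ 0 * (s ⟨0, hr⟩ 0).val :=
    Nat.mul_pos (hu _ _) (Nat.pos_of_ne_zero fun h => (hs ⟨0, hr⟩).1 0 ((ZMod.val_eq_zero _).1 h))
  have h1 : u ⟨0, hr⟩ 0 * (s ⟨0, hr⟩ 0).val ≤ ∑ j, u ⟨0, hr⟩ j * (s ⟨0, hr⟩ j).val :=
    Finset.single_le_sum (f := fun j => u ⟨0, hr⟩ j * (s ⟨0, hr⟩ j).val) (fun _ _ => Nat.zero_le _)
      (Finset.mem_univ _)
  have h2 : ∑ j, u ⟨0, hr⟩ j * (s ⟨0, hr⟩ j).val ≤ wt u s :=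
    Finset.single_le_sum (f := fun b => ∑ j, u b j * (s b j).val) (fun _ _ => Nat.zero_le _)
      (Finset.mem_univ _)
  omega

/-- the power sums of the line -/
lemma TL_line (hmd : m * d ∣ Fintype.card k - 1) (θ : MulChar k ℂ) (hθ : orderOf θ = m * d)
    {ψ : AddChar k ℂ} (hψ : ψ ≠ 1) {r : ℕ} (hr : 1 ≤ r) {n : Fin r → ℕ}
    (c : ∀ b, Fin (n b + 2) → k) {u v : ∀ b, Fin (n b + 2) → ℕ}
    (hu : ∀ b j, 0 < u b j) (hv : ∀ b j, 0 < v b j)
    {s : ∀ b, Fin (n b + 2) → ZMod m} (hs : s ∈ lines m n) (l : ℕ) (hl : 1 ≤ l) :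
    TL (lamA (θ ^ d)⁻¹ (aps (co d c u v) s)) l =
      ((∑ e : ZMod d, Dl θ⁻¹ ((θ ^ d)⁻¹ (cst c s)) m d (wt u s) (wt v s) e.val).map
        fun β => β ^ l).sum -
      ((∑ e : ZMod d, Bl θ⁻¹ ((θ ^ d)⁻¹ (cst c s)) m d (wt u s) (wt v s) e.val).map
        fun β => β ^ l).sum := by
  classical
  obtain ⟨E, _, _, _, hE⟩ := exists_ext k l hl
  set τ := θ⁻¹ with hτ
  have hd0 : 0 < d := Nat.pos_of_ne_zero (NeZero.ne d)
  have hτd : (θ ^ d)⁻¹ = τ ^ d := by rw [hτ, inv_pow]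
  have hτo : orderOf τ = m * d := by rw [hτ, orderOf_inv, hθ]
  have hA := wt_pos hr hu hs
  have hV := wt_pos hr hv hs
  have h1 := TL_lamA (E := E) (θ ^ d)⁻¹ (aps (co d c u v) s)
  rw [hE] at h1
  have h2 : ∀ x : E, (θ ^ d)⁻¹ (Algebra.norm k (aeval x (aps (co d c u v) s))) =
      (θ ^ d)⁻¹ (cst c s) ^ Module.finrank k E *
        ((chE τ E ^ (d * wt u s)) x * (chE τ E ^ (d * wt v s)) (1 - x ^ d)) := by
    intro x
    have h0 : aeval x (aps (co d c u v) s) =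
        algebraMap k E (cst c s) * x ^ wt u s * (1 - x ^ d) ^ wt v s := by
      rw [aps_co]
      simp
    rw [h0, map_mul, map_mul, map_mul, map_mul, Algebra.norm_algebraMap, map_pow, mul_assoc]
    congr 1
    have h3 : ∀ (y : E) (w : ℕ), w ≠ 0 → (θ ^ d)⁻¹ (Algebra.norm k (y ^ w)) =
        (chE τ E ^ (d * w)) y := by
      intro y w hw
      rw [MulChar.pow_apply' (chE τ E) (mul_ne_zero hd0.ne' hw) y, map_pow, map_pow, hτd,
        mc_pow_apply τ hd0.ne', ← pow_mul]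
      rfl
    rw [h3 x _ hA, h3 (1 - x ^ d) _ hV]
  have hdE : m * d ∣ Fintype.card E - 1 := by
    have : NeZero (m * d) := ⟨mul_ne_zero (NeZero.ne m) (NeZero.ne d)⟩
    exact dvd_cardE (E := E) hmd
  rw [h1, Finset.sum_congr rfl fun x _ => h2 x, ← Finset.mul_sum,
    sum_jacobi (E := E) hdE (chE τ E) (by rw [orderOf_chE, hτo]), psum_sum, psum_sum,
    ← Finset.sum_sub_distrib, Finset.mul_sum]
  refine Finset.sum_congr rfl fun e _ => ?_
  have h4 := BD_psum τ ((θ ^ d)⁻¹ (cst c s)) m d (wt u s) (wt v s) e.val hψ E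
  rw [hE] at h4 ⊢
  exact h4

lemma norm_ne {i : ℕ} {ρ β : ℂ} (hρ : ‖ρ‖ ^ 2 * Fintype.card k = (Fintype.card k : ℝ) ^ (2 * i))
    (hβ : ‖β‖ = 1 ∨ ‖β‖ = Fintype.card k) : β * ρ ≠ (Fintype.card k : ℂ) ^ i := by
  intro h
  have hq1 : (1 : ℝ) < Fintype.card k := one_lt_q
  have h1 : (‖β‖ * ‖ρ‖) ^ 2 = (Fintype.card k : ℝ) ^ (2 * i) := by
    rw [← norm_mul, h, norm_pow, Complex.norm_natCast, ← pow_mul, mul_comm i 2]
  have hpos : (0 : ℝ) < (Fintype.card k : ℝ) ^ (2 * i) := by positivity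
  have hρ0 : 0 < ‖ρ‖ ^ 2 := by
    by_contra h2
    have h3 : ‖ρ‖ ^ 2 = 0 := le_antisymm (not_lt.1 h2) (by positivity)
    rw [h3, zero_mul] at hρ
    linarith
  rcases hβ with h2 | h2
  · rw [h2, one_mul, ← hρ] at h1
    nlinarith
  · rw [h2, mul_pow, ← hρ] at h1
    nlinarith

open scoped Classical in
/-- the number of `e` which contribute -/
noncomputable def okl (θ : MulChar k ℂ) (ψ : AddChar k ℂ) (i : ℕ) {r : ℕ} {n : Fin r → ℕ}
    (c : ∀ b, Fin (n b + 2) → k) (u v : ∀ b, Fin (n b + 2) → ℕ)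
    (s : ∀ b, Fin (n b + 2) → ZMod m) : Finset (ZMod d) :=
  univ.filter fun e => θ⁻¹ ^ (wt u s + m * e.val) ≠ 1 ∧ θ⁻¹ ^ (d * wt v s) ≠ 1 ∧
    θ⁻¹ ^ (wt u s + m * e.val) * θ⁻¹ ^ (d * wt v s) ≠ 1 ∧
    -((θ ^ d)⁻¹ (cst c s) * jacobiSum (θ⁻¹ ^ (wt u s + m * e.val)) (θ⁻¹ ^ (d * wt v s))) *
      rho (θ ^ d) ψ s = (Fintype.card k : ℂ) ^ i

/-- the `L`-function of one line -/
theorem line_G (hmd : m * d ∣ Fintype.card k - 1) (θ : MulChar k ℂ) (hθ : orderOf θ = m * d)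
    {ψ : AddChar k ℂ} (hψ : ψ ≠ 1) {r : ℕ} {n : Fin r → ℕ} {i : ℕ}
    (hi : ∑ b, n b + 1 = 2 * i) (hr : 1 ≤ r)
    {c : ∀ b, Fin (n b + 2) → k} (hc : ∀ b j, c b j ≠ 0) {u v : ∀ b, Fin (n b + 2) → ℕ}
    (hu : ∀ b j, 0 < u b j) (hv : ∀ b j, 0 < v b j)
    {s : ∀ b, Fin (n b + 2) → ZMod m} (hs : s ∈ lines m n) :
    ∃ G : ℂ → ℂ, (∀ x : ℂ, ‖x‖ * Fintype.card k < 1 →
        HasProd (fun w : FPlace k =>
          (1 - lamA (θ ^ d)⁻¹ (aps (co d c u v) s) w.1 * x ^ w.1.natDegree)⁻¹) (G x)) ∧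
      (∀ z : ℂ, MeromorphicAt
        (fun z : ℂ => G (rho (θ ^ d) ψ s * (Fintype.card k : ℂ) ^ (-z))) z) ∧
      meromorphicOrderAt (fun z : ℂ => G (rho (θ ^ d) ψ s * (Fintype.card k : ℂ) ^ (-z))) i =
        (((okl (d := d) θ ψ i c u v s).card : ℕ) : ℤ) := by
  classical
  have hd0 : 0 < d := Nat.pos_of_ne_zero (NeZero.ne d)
  have hq1 : (1 : ℝ) < Fintype.card k := one_lt_q
  have hq0 : (0 : ℝ) < Fintype.card k := by linarith
  have hqc : (((Fintype.card k : ℝ) : ℂ)) = (Fintype.card k : ℂ) := by push_cast; rfl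
  have hχo : orderOf (θ ^ d) = m := by
    rw [orderOf_pow_of_dvd hd0.ne' (by rw [hθ]; exact dvd_mul_left _ _), hθ,
      Nat.mul_div_cancel _ hd0]
  have hρ : ‖rho (θ ^ d) ψ s‖ ^ 2 * Fintype.card k = (Fintype.card k : ℝ) ^ (2 * i) := by
    rw [norm_rho (θ ^ d) hχo hψ hs, ← pow_succ, hi]
  set c' : ℂ := (θ ^ d)⁻¹ (cst c s) with hc'
  have hc'1 : ‖c'‖ = 1 := mc_norm _ (cst_ne_zero hc s)
  set B : Multiset ℂ := ∑ e : ZMod d, Bl θ⁻¹ c' m d (wt u s) (wt v s) e.val with hB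
  set D : Multiset ℂ := ∑ e : ZMod d, Dl θ⁻¹ c' m d (wt u s) (wt v s) e.val with hD
  have hBn : ∀ β ∈ B, ‖β‖ ≤ Fintype.card k := by
    intro β hβ
    obtain ⟨e, -, he⟩ := (mem_msum _ _).1 hβ
    exact Bl_norm θ⁻¹ hc'1 _ _ _ _ _ β he
  have hDn : ∀ β ∈ D, ‖β‖ = Fintype.card k := by
    intro β hβ
    obtain ⟨e, -, he⟩ := (mem_msum _ _).1 hβ
    exact Dl_norm θ⁻¹ hc'1 _ _ _ _ _ β he
  have oB := order_PB hq1 B (rho (θ ^ d) ψ s) i
  have oD := order_PB hq1 D (rho (θ ^ d) ψ s) i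
  rw [hqc] at oB oD
  refine ⟨fun x => (PB B).eval x / (PB D).eval x, fun x hx => ?_, fun z => ?_, ?_⟩
  · exact hasProd_of_TL (k := k) (lamA (θ ^ d)⁻¹ (aps (co d c u v) s))
      (fun P => lamA_norm_le _ _ _) D B (fun β hβ => (hDn β hβ).le) hBn
      (fun l hl => TL_line hmd θ hθ hψ hr c hu hv hs l hl) x hx
  · exact (oB.1 z).div (oD.1 z)
  · rw [fun_meromorphicOrderAt_div (oB.1 _) (oD.1 _), oB.2, oD.2]
    have hD0 : Multiset.card (D.filter fun β => β * rho (θ ^ d) ψ s = (Fintype.card k : ℂ) ^ i)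
        = 0 := by
      rw [Multiset.card_eq_zero, Multiset.filter_eq_nil]
      intro β hβ
      exact norm_ne hρ (Or.inr (hDn β hβ))
    rw [hD0]
    have hB0 : Multiset.card (B.filter fun β => β * rho (θ ^ d) ψ s = (Fintype.card k : ℂ) ^ i)
        = (okl (d := d) θ ψ i c u v s).card := by
      rw [hB, card_filter_msum, okl, Finset.card_filter]
      refine Finset.sum_congr rfl fun e _ => ?_
      unfold Bl
      by_cases h1 : θ⁻¹ ^ (wt u s + m * e.val) = 1 ∧ θ⁻¹ ^ (d * wt v s) = 1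
      · rw [if_pos h1, if_neg (fun h => h.1 h1.1), Multiset.card_eq_zero, Multiset.filter_eq_nil]
        intro β hβ
        have : β = c' := by simpa using hβ
        rw [this]
        exact norm_ne hρ (Or.inl hc'1)
      · rw [if_neg h1, Multiset.filter_singleton]
        by_cases h2 : θ⁻¹ ^ (wt u s + m * e.val) = 1 ∨ θ⁻¹ ^ (d * wt v s) = 1 ∨
            θ⁻¹ ^ (wt u s + m * e.val) * θ⁻¹ ^ (d * wt v s) = 1
        · have h3 : ‖jacobiSum (θ⁻¹ ^ (wt u s + m * e.val)) (θ⁻¹ ^ (d * wt v s))‖ = 1 :=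
            norm_jacobi_eq (by tauto) h2
          have h4 : -(c' * jacobiSum (θ⁻¹ ^ (wt u s + m * e.val)) (θ⁻¹ ^ (d * wt v s))) *
              rho (θ ^ d) ψ s ≠ (Fintype.card k : ℂ) ^ i :=
            norm_ne hρ (Or.inl (by rw [norm_neg, norm_mul, hc'1, h3, one_mul]))
          rw [if_neg h4, if_neg (fun h => h4 h.2.2.2)]
          rfl
        · push Not at h2
          by_cases h4 : -(c' * jacobiSum (θ⁻¹ ^ (wt u s + m * e.val)) (θ⁻¹ ^ (d * wt v s))) *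
              rho (θ ^ d) ψ s = (Fintype.card k : ℂ) ^ i
          · rw [if_pos h4, if_pos ⟨h2.1, h2.2.1, h2.2.2, h4⟩]
            rfl
          · rw [if_neg h4, if_neg (fun h => h4 h.2.2.2)]
            rfl
    rw [hB0]
    simp

end line

end Pool.Agent.Zk8.DT
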