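import Pool.Agent.Zk8.DT.Line

/-!
# The lines of the tensor product with `H¹`
-/

set_option autoImplicit false
set_option linter.unusedSectionVars false

namespace Pool.Agent.Zk8.DT

open Polynomial Finset
open Pool.Agent.Zk8.DH
open Pool.Agent.N883.C (chE)

section

variable {k : Type} [Field k] [Fintype k]

lemma gauss_inv {χ : MulChar k ℂ} (hχ : χ ≠ 1) {ψ : AddChar k ℂ} (hψ : ψ ≠ 1) :
    gaussSum χ ψ * gaussSum χ⁻¹ ψ = χ (-1) * Fintype.card k := by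
  have h1 := gaussSum_mul_gaussSum_eq_card hχ (AddChar.IsPrimitive.of_ne_one hψ)
  have h2 := gaussSum_mulShift χ⁻¹ ψ (-1)
  have h3 : ψ.mulShift (((-1 : kˣ)) : k) = ψ⁻¹ := by
    ext x
    simp [AddChar.mulShift_apply, AddChar.inv_apply]
  rw [h3] at h2
  have h4 : χ⁻¹ (((-1 : kˣ)) : k) = χ (-1) := by
    rw [MulChar.inv_apply_eq_inv']
    push_cast
    have h5 : χ (-1) * χ (-1) = 1 := by rw [← map_mul]; simp
    exact inv_eq_of_mul_eq_one_left h5
  rw [h4] at h2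
  rw [← h2]
  linear_combination χ (-1) * h1

lemma neg_one_sq (χ : MulChar k ℂ) : χ (-1) * χ (-1) = 1 := by rw [← map_mul]; simp

lemma jacobi_gauss {η φ : MulChar k ℂ} (h : η * φ ≠ 1) {ψ : AddChar k ℂ} (hψ : ψ ≠ 1) :
    jacobiSum η φ * Fintype.card k =
      (η * φ) (-1) * (gaussSum η ψ * gaussSum φ ψ * gaussSum (η * φ)⁻¹ ψ) := by
  have h1 := jacobiSum_mul_nontrivial h ψ
  have h2 := gauss_inv h hψ
  have h3 := neg_one_sq (η * φ)
  rw [← h1]
  linear_combination -(jacobiSum η φ * (η * φ) (-1)) * h2 - (jacobiSum η φ * Fintype.card k) * h3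

end

section pairs

variable {k : Type} [Field k] [Fintype k] [DecidableEq k] {m d : ℕ} [NeZero m] [NeZero d]

/-- the characters with exponents in `ZMod (m * d)` -/
lemma pow_neg_val {θ : MulChar k ℂ} (hθ : orderOf θ = m * d) (N : ℕ) :
    θ ^ (-((N : ℕ) : ZMod (m * d))).val = θ⁻¹ ^ N := by
  have : NeZero (m * d) := ⟨mul_ne_zero (NeZero.ne m) (NeZero.ne d)⟩
  rw [inv_pow, eq_inv_iff_mul_eq_one, ← pow_add]
  apply orderOf_dvd_iff_pow_eq_one.1
  rw [hθ, ← ZMod.natCast_eq_zero_iff]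
  push_cast
  rw [ZMod.natCast_zmod_val, neg_add_cancel]

lemma pow_val_mul {θ : MulChar k ℂ} (hθ : orderOf θ = m * d) (a b : ZMod (m * d)) :
    θ ^ a.val * θ ^ b.val = θ ^ (a + b).val := by
  have : NeZero (m * d) := ⟨mul_ne_zero (NeZero.ne m) (NeZero.ne d)⟩
  rw [← pow_add, pow_eq_pow_iff_modEq, hθ, ← ZMod.natCast_eq_natCast_iff]
  push_cast
  simp

lemma pow_val_inv {θ : MulChar k ℂ} (hθ : orderOf θ = m * d) (a : ZMod (m * d)) :
    (θ ^ a.val)⁻¹ = θ ^ (-a).val := by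
  rw [inv_eq_iff_mul_eq_one, pow_val_mul hθ, add_neg_cancel, ZMod.val_zero, pow_zero]

lemma pow_val_eq_one {θ : MulChar k ℂ} (hθ : orderOf θ = m * d) (a : ZMod (m * d)) :
    θ ^ a.val = 1 ↔ a = 0 := by
  have : NeZero (m * d) := ⟨mul_ne_zero (NeZero.ne m) (NeZero.ne d)⟩
  constructor
  · intro h
    have h1 := orderOf_dvd_of_pow_eq_one h
    rw [hθ] at h1
    exact (ZMod.val_eq_zero _).1 (Nat.eq_zero_of_dvd_of_lt h1 (ZMod.val_lt _))
  · rintro rfl
    rw [ZMod.val_zero, pow_zero]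

lemma val_dmul (a : ZMod m) : (((d * a.val : ℕ)) : ZMod (m * d)).val = d * a.val := by
  apply ZMod.val_natCast_of_lt
  rw [mul_comm m d]
  exact Nat.mul_lt_mul_of_pos_left (ZMod.val_lt a) (Nat.pos_of_ne_zero (NeZero.ne d))

/-- the residue of the second Kummer exponent -/
def Wt {r : ℕ} {n : Fin r → ℕ} (d : ℕ) (v : ∀ b, Fin (n b + 2) → ℕ)
    (s : ∀ b, Fin (n b + 2) → ZMod m) : ZMod (m * d) := ((d * wt v s : ℕ) : ZMod (m * d))

/-- the residues of the line `(s, e)` -/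
def tup {r : ℕ} {n : Fin r → ℕ} (d : ℕ) (v : ∀ b, Fin (n b + 2) → ℕ)
    (s : ∀ b, Fin (n b + 2) → ZMod m) (e : ZMod (m * d)) : Multiset (ZMod (m * d)) :=
  ((Finset.univ : Finset (Σ b, Fin (n b + 2))).val.map fun x =>
    (((d * (s x.1 x.2).val : ℕ)) : ZMod (m * d))) + {e, -Wt d v s, Wt d v s - e}

lemma tup_prod {M : Type*} [CommMonoid M] {r : ℕ} {n : Fin r → ℕ}
    (v : ∀ b, Fin (n b + 2) → ℕ) (s : ∀ b, Fin (n b + 2) → ZMod m) (e : ZMod (m * d))
    (f : ZMod (m * d) → M) :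
    ((tup d v s e).map f).prod = (∏ b, ∏ j, f (((d * (s b j).val : ℕ)) : ZMod (m * d))) *
      (f e * (f (-Wt d v s) * f (Wt d v s - e))) := by
  rw [tup, Multiset.map_add, Multiset.prod_add, Multiset.map_map, Finset.prod_map_val,
    ← Finset.univ_sigma_univ, Finset.prod_sigma]
  congr 1
  simp

lemma tup_card {r : ℕ} {n : Fin r → ℕ} (v : ∀ b, Fin (n b + 2) → ℕ)
    (s : ∀ b, Fin (n b + 2) → ZMod m) (e : ZMod (m * d)) :
    Multiset.card (tup d v s e) = ∑ b, n b + 2 * r + 3 := by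
  rw [tup, Multiset.card_add, Multiset.card_map, Finset.card_val, Finset.card_univ,
    Fintype.card_sigma]
  simp only [Fintype.card_fin]
  rw [Finset.sum_add_distrib, Finset.sum_const, Finset.card_univ, Fintype.card_fin, smul_eq_mul,
    mul_comm r 2]
  simp

lemma tup_sum {r : ℕ} {n : Fin r → ℕ} (v : ∀ b, Fin (n b + 2) → ℕ)
    {s : ∀ b, Fin (n b + 2) → ZMod m} (hs : s ∈ lines m n) (e : ZMod (m * d)) :
    (tup d v s e).sum = 0 := by
  rw [mem_lines] at hs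
  rw [tup, Multiset.sum_add]
  have h1 : ((Finset.univ : Finset (Σ b, Fin (n b + 2))).val.map fun x =>
      (((d * (s x.1 x.2).val : ℕ)) : ZMod (m * d))).sum =
      ∑ x : (Σ b, Fin (n b + 2)), (((d * (s x.1 x.2).val : ℕ)) : ZMod (m * d)) := rfl
  rw [h1, ← Finset.univ_sigma_univ, Finset.sum_sigma]
  have h2 : ∀ b ∈ (univ : Finset (Fin r)),
      ∑ j, (((d * (s b j).val : ℕ)) : ZMod (m * d)) = 0 := by
    intro b _
    have h3 : m ∣ ∑ j, (s b j).val := by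
      rw [← ZMod.natCast_eq_zero_iff]
      push_cast
      rw [← (hs b).2]
      exact Finset.sum_congr rfl fun j _ => ZMod.natCast_zmod_val _
    rw [← Nat.cast_sum, ← Finset.mul_sum, ZMod.natCast_eq_zero_iff, mul_comm m d]
    exact Nat.mul_dvd_mul_left d h3
  rw [Finset.sum_eq_zero h2]
  simp only [Multiset.insert_eq_cons, Multiset.sum_cons, Multiset.sum_singleton]
  ring

lemma tup_zero {r : ℕ} {n : Fin r → ℕ} (v : ∀ b, Fin (n b + 2) → ℕ)
    {s : ∀ b, Fin (n b + 2) → ZMod m} (hs : s ∈ lines m n) (e : ZMod (m * d)) :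
    (0 : ZMod (m * d)) ∉ tup d v s e ↔ e ≠ 0 ∧ Wt d v s ≠ 0 ∧ e ≠ Wt d v s := by
  rw [mem_lines] at hs
  have hd0 : 0 < d := Nat.pos_of_ne_zero (NeZero.ne d)
  have h1 : (0 : ZMod (m * d)) ∉ (Finset.univ : Finset (Σ b, Fin (n b + 2))).val.map fun x =>
      (((d * (s x.1 x.2).val : ℕ)) : ZMod (m * d)) := by
    rw [Multiset.mem_map]
    rintro ⟨x, -, hx⟩
    have h2 := congrArg ZMod.val hx
    rw [val_dmul, ZMod.val_zero] at h2
    rcases Nat.mul_eq_zero.1 h2 with h3 | h3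
    · omega
    · exact (hs x.1).1 x.2 ((ZMod.val_eq_zero _).1 h3)
  rw [tup, Multiset.mem_add]
  simp only [Multiset.insert_eq_cons, Multiset.mem_cons, Multiset.mem_singleton]
  constructor
  · intro h
    refine ⟨fun h2 => h (Or.inr (Or.inl h2.symm)), fun h2 => h (Or.inr (Or.inr (Or.inl ?_))),
      fun h2 => h (Or.inr (Or.inr (Or.inr ?_)))⟩
    · rw [h2, neg_zero]
    · rw [h2, sub_self]
  · rintro ⟨h2, h3, h4⟩ (h5 | h5 | h5 | h5)
    · exact h1 h5
    · exact h2 h5.symm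
    · exact h3 (neg_eq_zero.1 h5.symm)
    · exact h4 (sub_eq_zero.1 h5.symm).symm

/-- the equation in terms of Gauss sums -/
def Eqn (θ : MulChar k ℂ) (ψ : AddChar k ℂ) (i : ℕ) {r : ℕ} {n : Fin r → ℕ}
    (c : ∀ b, Fin (n b + 2) → k) (v : ∀ b, Fin (n b + 2) → ℕ)
    (s : ∀ b, Fin (n b + 2) → ZMod m) (e : ZMod (m * d)) : Prop :=
  (θ ^ d)⁻¹ (cst c s) * (θ ^ (e - Wt d v s).val) (-1) *
    ((tup d v s e).map fun a => gaussSum (θ ^ a.val) ψ).prod = (Fintype.card k : ℂ) ^ (i + r + 1)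

lemma eqn_iff {θ : MulChar k ℂ} (hθ : orderOf θ = m * d) {ψ : AddChar k ℂ} (hψ : ψ ≠ 1) (i : ℕ)
    {r : ℕ} {n : Fin r → ℕ} (c : ∀ b, Fin (n b + 2) → k) (u v : ∀ b, Fin (n b + 2) → ℕ)
    (s : ∀ b, Fin (n b + 2) → ZMod m) (l : ℕ) (e : ZMod (m * d))
    (he : e = -((wt u s + m * l : ℕ) : ZMod (m * d))) (hne : e ≠ Wt d v s) :
    -((θ ^ d)⁻¹ (cst c s) * jacobiSum (θ⁻¹ ^ (wt u s + m * l)) (θ⁻¹ ^ (d * wt v s))) *
      rho (θ ^ d) ψ s = (Fintype.card k : ℂ) ^ i ↔ Eqn (d := d) θ ψ i c v s e := by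
  have hq0 : (Fintype.card k : ℂ) ≠ 0 := by exact_mod_cast Fintype.card_ne_zero
  have h1 : θ⁻¹ ^ (wt u s + m * l) = θ ^ e.val := by rw [he, pow_neg_val hθ]
  have h2 : θ⁻¹ ^ (d * wt v s) = θ ^ (-Wt d v s).val := by rw [Wt, pow_neg_val hθ]
  have h3 : θ ^ e.val * θ ^ (-Wt d v s).val = θ ^ (e - Wt d v s).val := by
    rw [pow_val_mul hθ, sub_eq_add_neg]
  have h4 : (θ ^ e.val * θ ^ (-Wt d v s).val)⁻¹ = θ ^ (Wt d v s - e).val := by
    rw [h3, pow_val_inv hθ, neg_sub]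
  have h5 : θ ^ e.val * θ ^ (-Wt d v s).val ≠ 1 := by
    rw [h3, Ne, pow_val_eq_one hθ]
    exact sub_ne_zero.2 hne
  have h6 := jacobi_gauss h5 hψ
  rw [h4] at h6
  rw [h3] at h6
  have h7 : ∀ b j, gaussSum ((θ ^ d) ^ (s b j).val) ψ =
      gaussSum (θ ^ (((d * (s b j).val : ℕ)) : ZMod (m * d)).val) ψ := by
    intro b j
    rw [val_dmul, pow_mul]
  unfold Eqn
  rw [h1, h2, tup_prod v s e (fun a => gaussSum (θ ^ a.val) ψ), rho]
  simp only [h7]
  generalize (∏ b, ∏ j, gaussSum (θ ^ (((d * (s b j).val : ℕ)) : ZMod (m * d)).val) ψ) = P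
  generalize (θ ^ d)⁻¹ (cst c s) = c'
  generalize (θ ^ (e - Wt d v s).val) (-1) = ε at *
  generalize gaussSum (θ ^ e.val) ψ = g1 at *
  generalize gaussSum (θ ^ (-Wt d v s).val) ψ = g2 at *
  generalize gaussSum (θ ^ (Wt d v s - e).val) ψ = g3 at *
  generalize jacobiSum (θ ^ e.val) (θ ^ (-Wt d v s).val) = J at *
  generalize (Fintype.card k : ℂ) = q at *
  have h8 : c' * ε * (P * (g1 * (g2 * g3))) = c' * P * (J * q) := by
    rw [h6]
    ring
  have h9 : -(c' * J) * (-(q ^ r)⁻¹ * P) = c' * P * J * (q ^ r)⁻¹ := by ring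
  rw [h8, h9, ← div_eq_mul_inv, div_eq_iff (pow_ne_zero _ hq0)]
  constructor
  · intro h
    rw [pow_succ, pow_add, ← h]
    ring
  · intro h
    apply mul_right_cancel₀ hq0
    rw [← pow_add, ← pow_succ, ← h]
    ring

open scoped Classical in
/-- the lines `(s, e)` over `s` which contribute -/
noncomputable def prs (θ : MulChar k ℂ) (ψ : AddChar k ℂ) (i : ℕ) {r : ℕ} {n : Fin r → ℕ}
    (c : ∀ b, Fin (n b + 2) → k) (u v : ∀ b, Fin (n b + 2) → ℕ)
    (s : ∀ b, Fin (n b + 2) → ZMod m) : Finset (ZMod (m * d)) :=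
  haveI : NeZero (m * d) := ⟨mul_ne_zero (NeZero.ne m) (NeZero.ne d)⟩
  univ.filter fun e => ((e.val : ℕ) : ZMod m) = -∑ b, ∑ j, (u b j : ZMod m) * s b j ∧
    (0 : ZMod (m * d)) ∉ tup d v s e ∧ Eqn (d := d) θ ψ i c v s e

lemma wt_cast {r : ℕ} {n : Fin r → ℕ} (u : ∀ b, Fin (n b + 2) → ℕ)
    (s : ∀ b, Fin (n b + 2) → ZMod m) :
    ((wt u s : ℕ) : ZMod m) = ∑ b, ∑ j, (u b j : ZMod m) * s b j := by
  unfold wt
  push_cast
  simp only [ZMod.natCast_zmod_val]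

theorem okl_card {θ : MulChar k ℂ} (hθ : orderOf θ = m * d) {ψ : AddChar k ℂ} (hψ : ψ ≠ 1) (i : ℕ)
    {r : ℕ} {n : Fin r → ℕ} (c : ∀ b, Fin (n b + 2) → k) (u v : ∀ b, Fin (n b + 2) → ℕ)
    {s : ∀ b, Fin (n b + 2) → ZMod m} (hs : s ∈ lines m n) :
    (okl (d := d) θ ψ i c u v s).card = (prs (d := d) θ ψ i c u v s).card := by
  classical
  have hmd : NeZero (m * d) := ⟨mul_ne_zero (NeZero.ne m) (NeZero.ne d)⟩
  have hm0 : 0 < m := Nat.pos_of_ne_zero (NeZero.ne m)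
  have hd0 : 0 < d := Nat.pos_of_ne_zero (NeZero.ne d)
  have hcast : ∀ N : ℕ, (((-((N : ℕ) : ZMod (m * d))).val : ℕ) : ZMod m) = -((N : ℕ) : ZMod m) := by
    intro N
    have h1 : (((-((N : ℕ) : ZMod (m * d))).val + N : ℕ) : ZMod (m * d)) = 0 := by
      push_cast
      rw [ZMod.natCast_zmod_val, neg_add_cancel]
    have h2 : m ∣ (-((N : ℕ) : ZMod (m * d))).val + N :=
      (dvd_mul_right m d).trans ((ZMod.natCast_eq_zero_iff _ _).1 h1)
    have h3 := (ZMod.natCast_eq_zero_iff _ m).2 h2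
    push_cast at h3
    exact eq_neg_of_add_eq_zero_left h3
  have hW : θ⁻¹ ^ (d * wt v s) = θ ^ (-Wt d v s).val := by rw [Wt, pow_neg_val hθ]
  have hN : ∀ l : ℕ, θ⁻¹ ^ (wt u s + m * l) =
      θ ^ (-((wt u s + m * l : ℕ) : ZMod (m * d))).val := fun l => by rw [pow_neg_val hθ]
  refine Finset.card_bij (fun l _ => -((wt u s + m * l.val : ℕ) : ZMod (m * d))) ?_ ?_ ?_
  · intro l hl
    rw [okl, mem_filter] at hl
    obtain ⟨-, h1, h2, h3, h4⟩ := hl
    rw [hN] at h1 h3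
    rw [hW] at h2 h3
    rw [pow_val_mul hθ] at h3
    rw [Ne, pow_val_eq_one hθ] at h1 h2 h3
    rw [prs, mem_filter]
    have h5 : -((wt u s + m * l.val : ℕ) : ZMod (m * d)) ≠ Wt d v s := by
      intro h
      apply h3
      rw [h, add_neg_cancel]
    refine ⟨mem_univ _, ?_, (tup_zero v hs _).2 ⟨h1, fun h => h2 (by rw [h, neg_zero]), h5⟩, ?_⟩
    · rw [hcast]
      push_cast
      rw [ZMod.natCast_self, zero_mul, add_zero, wt_cast]
    · exact (eqn_iff hθ hψ i c u v s l.val _ rfl h5).1 h4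
  · intro l hl l' hl' h
    have h1 : ((wt u s + m * l.val : ℕ) : ZMod (m * d)) = ((wt u s + m * l'.val : ℕ) : ZMod (m * d)) :=
      neg_injective h
    rw [ZMod.natCast_eq_natCast_iff] at h1
    have h2 : m * l.val ≡ m * l'.val [MOD m * d] := Nat.ModEq.add_left_cancel' _ h1
    have h3 : l.val ≡ l'.val [MOD d] := Nat.ModEq.mul_left_cancel' hm0.ne' h2
    have h4 : l.val = l'.val := by
      rw [Nat.ModEq, Nat.mod_eq_of_lt (ZMod.val_lt l), Nat.mod_eq_of_lt (ZMod.val_lt l')] at h3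
      exact h3
    exact ZMod.val_injective d h4
  · intro e he
    rw [prs, mem_filter] at he
    obtain ⟨-, h1, h2, h3⟩ := he
    rw [tup_zero v hs] at h2
    -- find `l`
    obtain ⟨t, ht⟩ : ∃ t : ℤ, (((-e).val : ℕ) : ℤ) - wt u s = m * t := by
      have h4 : (((-e).val : ℕ) : ZMod m) = ((wt u s : ℕ) : ZMod m) := by
        rw [wt_cast]
        have h5 := hcast e.val
        rw [ZMod.natCast_zmod_val] at h5
        rw [h5, h1, neg_neg]
      have h5 : ((((-e).val : ℕ) : ℤ) - wt u s : ℤ) ≡ 0 [ZMOD m] := by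
        rw [← ZMod.intCast_eq_intCast_iff]
        push_cast
        rw [h4, sub_self]
      obtain ⟨t, ht⟩ := (Int.modEq_zero_iff_dvd.1 h5)
      exact ⟨t, ht⟩
    set l : ZMod d := (t : ZMod d) with hl
    have h4 : -((wt u s + m * l.val : ℕ) : ZMod (m * d)) = e := by
      rw [neg_eq_iff_eq_neg]
      obtain ⟨w, hw⟩ : ∃ w : ℤ, t - (l.val : ℤ) = d * w := by
        have h5 : (t : ZMod d) = ((l.val : ℤ) : ZMod d) := by
          rw [← hl]
          simp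
        have h6 := (ZMod.intCast_eq_intCast_iff _ _ _).1 h5
        obtain ⟨w, hw⟩ := (Int.modEq_iff_dvd.1 h6.symm)
        exact ⟨w, hw⟩
      have h5 : ((wt u s + m * l.val : ℕ) : ℤ) = (((-e).val : ℕ) : ℤ) - (m * d : ℕ) * w := by
        push_cast
        linear_combination -ht - m * hw
      have h6 := congrArg (Int.cast : ℤ → ZMod (m * d)) h5
      rw [Int.cast_natCast] at h6
      rw [h6]
      push_cast
      have h7 : (m : ZMod (m * d)) * d = 0 := by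
        rw [← Nat.cast_mul]
        exact ZMod.natCast_self _
      rw [h7, zero_mul, sub_zero, ZMod.natCast_zmod_val]
    refine ⟨l, ?_, h4⟩
    rw [okl, mem_filter]
    rw [hN, hW, pow_val_mul hθ, h4]
    refine ⟨mem_univ _, ?_, ?_, ?_, ?_⟩
    · rw [Ne, pow_val_eq_one hθ]
      exact h2.1
    · rw [Ne, pow_val_eq_one hθ, neg_eq_zero]
      exact h2.2.1
    · rw [Ne, pow_val_eq_one hθ, ← sub_eq_add_neg, sub_eq_zero]
      exact h2.2.2
    · have h5 := (eqn_iff hθ hψ i c u v s l.val e h4.symm h2.2.2).2 h3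
      rw [hN, hW, h4] at h5
      exact h5

end pairs

section tate

variable {k : Type} [Field k] [Fintype k] {p m d : ℕ} [Fact p.Prime] [CharP k p] [NeZero m]
  [NeZero d]

open Pool.Agent.H916T in
/-- the lines which contribute are Tate characters -/
theorem isTate_tup (hmd : m * d ∣ Fintype.card k - 1) {θ : MulChar k ℂ} (hθ : orderOf θ = m * d)
    {ψ : AddChar k ℂ} (hψ : ψ ≠ 1) {r : ℕ} {n : Fin r → ℕ} {i : ℕ} (hi : ∑ b, n b + 1 = 2 * i)
    {c : ∀ b, Fin (n b + 2) → k} (hc : ∀ b j, c b j ≠ 0) (v : ∀ b, Fin (n b + 2) → ℕ)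
    {s : ∀ b, Fin (n b + 2) → ZMod m} (hs : s ∈ lines m n) {e : ZMod (m * d)}
    (h0 : (0 : ZMod (m * d)) ∉ tup d v s e) (h : Eqn (d := d) θ ψ i c v s e) :
    IsTate p (m * d) (tup d v s e) := by
  have : NeZero (m * d) := ⟨mul_ne_zero (NeZero.ne m) (NeZero.ne d)⟩
  have hm0 : 0 < m := Nat.pos_of_ne_zero (NeZero.ne m)
  have hd0 : 0 < d := Nat.pos_of_ne_zero (NeZero.ne d)
  refine Pool.Agent.N214.HB.isTate_of_gauss hmd θ hθ ψ hψ _ h0 (tup_sum v hs e) (i + r + 1) (by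
    rw [tup_card]
    omega) (2 * m) (by omega) ?_
  have h1 : ((θ ^ d)⁻¹ (cst c s)) ^ m = 1 := by
    have h2 : ((θ ^ d)⁻¹) ^ m = 1 := by
      rw [inv_pow, ← pow_mul, mul_comm d m, ← hθ, pow_orderOf_eq_one, inv_one]
    have h3 := congrArg (fun χ : MulChar k ℂ => χ (cst c s)) h2
    rw [MulChar.pow_apply' _ hm0.ne', MulChar.one_apply] at h3
    · exact h3
    · exact isUnit_iff_ne_zero.2 (Finset.prod_ne_zero_iff.2 fun b _ =>
        Finset.prod_ne_zero_iff.2 fun j _ => pow_ne_zero _ (hc b j))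
  have h2 : ((θ ^ (e - Wt d v s).val) (-1)) ^ 2 = 1 := by
    rw [pow_two, neg_one_sq]
  unfold Eqn at h
  have h3 := congrArg (fun z => z ^ (2 * m)) h
  rw [mul_pow, mul_pow, mul_comm 2 m, pow_mul _ m 2, h1, one_pow, one_mul, mul_comm m 2,
    pow_mul _ 2 m, h2, one_pow, one_mul] at h3
  exact h3

end tate

end Pool.Agent.Zk8.DT
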